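import Pool.Agent.Helper59.SL.GoalsA

/-!
# Project SL, Galois part: packet IND2 (independence of two archimedean logarithms)
-/

namespace Pool.Agent.Helper40.SLG.IND2

open Pool.Agent.Helper51.SigLeo Pool.Agent.Helper51.SixExp Pool.Agent.Helper17.SL NumberField Module
  TensorProduct
open Pool.Agent.Helper59.SL

universe u v w

/-- A linear relation between the logarithms at different places has constant coefficients. -/
theorem const_of_relation {H : Type*} [Field H] [NumberField H] [IsTotallyComplex H] {ι : Type*}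
    [Fintype ι] (pl : ι → InfinitePlace H) (hpl : Function.Injective pl) (r : ι → ℝ)
    (h : ∀ u : (𝓞 H)ˣ, ∑ i, r i * Real.log (pl i (u : H)) = 0) (i j : ι) : r i = r j := by
  classical
  have hm : ∀ w : InfinitePlace H, (w.mult : ℝ) = 2 := by
    intro w
    have h1 : w.IsComplex := IsTotallyComplex.isComplex w
    rw [InfinitePlace.mult_isComplex ⟨w, h1⟩]
    norm_num
  let c : InfinitePlace H → ℝ := fun w ↦ 2⁻¹ * ∑ i, if w = pl i then r i else 0
  have hc : ∀ u : (𝓞 H)ˣ, ∑ w, c w * (w.mult * Real.log (w (u : H))) = 0 := by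
    intro u
    have h1 : ∀ w : InfinitePlace H, c w * (w.mult * Real.log (w (u : H))) =
        ∑ i, if w = pl i then r i * Real.log (pl i (u : H)) else 0 := by
      intro w
      rw [hm w]
      show 2⁻¹ * (∑ i, if w = pl i then r i else 0) * (2 * Real.log (w (u : H))) = _
      rw [show 2⁻¹ * (∑ i, if w = pl i then r i else 0) * (2 * Real.log (w (u : H))) =
        (∑ i, if w = pl i then r i else 0) * Real.log (w (u : H)) by ring, Finset.sum_mul]
      refine Finset.sum_congr rfl fun i _ ↦ ?_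
      by_cases hw : w = pl i
      · rw [if_pos hw, if_pos hw, hw]
      · rw [if_neg hw, if_neg hw, zero_mul]
    simp only [h1]
    rw [Finset.sum_comm]
    simp only [Finset.sum_ite_eq', Finset.mem_univ, if_true]
    exact h u
  have hci : ∀ i, c (pl i) = 2⁻¹ * r i := by
    intro i
    show 2⁻¹ * (∑ i', if pl i = pl i' then r i' else 0) = _
    simp only [hpl.eq_iff, Finset.sum_ite_eq, Finset.mem_univ, if_true]
  have := log_relation_const c hc (pl i) (pl j)
  rw [hci, hci] at this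
  linarith

theorem thm : S_IND2.{u, v, w} := by
  classical
  intro F K H _ _ _ _ _ _ _ _ _ _ _ φ₁ φ₂ hφ χ hχ a b hab
  have hTC : IsTotallyComplex H := isTotallyComplex_of_algebra K H
  have hn : (finrank K H : ℂ) ≠ 0 := by
    exact_mod_cast (finrank_pos (R := K) (M := H)).ne'
  -- the formula for the logarithms
  have hform : ∀ (φ : H →+* ℂ) (x : (𝓞 H)ˣ),
      (finrank K H : ℂ) * extHom (logC φ) (eChi (finrank K H) χ unitsHom
        ((1 : ℂ) ⊗ₜ[ℤ] (Additive.ofMul x))) =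
      ∑ g : H ≃ₐ[K] H, ((χ g⁻¹ : ℂˣ) : ℂ) *
        ((Real.log (InfinitePlace.mk (φ.comp (g : H →+* H)) (x : H)) : ℝ) : ℂ) := by
    intro φ x
    unfold eChi
    rw [finsum_eq_sum_of_fintype, map_smul, map_sum, smul_eq_mul, mul_inv_cancel_left₀ hn]
    refine Finset.sum_congr rfl fun g _ ↦ ?_
    rw [map_smul, smul_eq_mul, extEnd_tmul, extHom_tmul, one_mul]
    rfl
  have hfix : ∀ (φ : H →+* ℂ) (g : H ≃ₐ[K] H),
      (φ.comp (g : H →+* H)).comp (algebraMap K H) = φ.comp (algebraMap K H) := by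
    intro φ g
    ext y
    show φ (g (algebraMap K H y)) = φ (algebraMap K H y)
    rw [AlgEquiv.commutes]
  have hinj1 : ∀ (φ : H →+* ℂ) (g g' : H ≃ₐ[K] H),
      InfinitePlace.mk (φ.comp (g : H →+* H)) = InfinitePlace.mk (φ.comp (g' : H →+* H)) →
      g = g' := by
    intro φ g g' h
    by_contra hne
    have h1 : g⁻¹ * g' ≠ 1 := fun h2 ↦ hne (inv_mul_eq_one.1 h2)
    apply mk_ne_comp (g⁻¹ * g') h1 (φ.comp (g : H →+* H))
    rw [h]
    congr 1
    ext y
    show φ (g' y) = φ (g ((g⁻¹ * g') y))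
    rw [← AlgEquiv.mul_apply, mul_inv_cancel_left]
  have hne12 : ∀ g g' : H ≃ₐ[K] H,
      InfinitePlace.mk (φ₁.comp (g : H →+* H)) ≠ InfinitePlace.mk (φ₂.comp (g' : H →+* H)) := by
    intro g g'
    apply mk_ne_of_restrict_ne (F := F) (K := K)
    rw [hfix, hfix]
    exact hφ
  let pl : (H ≃ₐ[K] H) ⊕ (H ≃ₐ[K] H) → InfinitePlace H := Sum.elim
    (fun g ↦ InfinitePlace.mk (φ₁.comp (g : H →+* H)))
    (fun g ↦ InfinitePlace.mk (φ₂.comp (g : H →+* H)))
  have hpl : Function.Injective pl := by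
    rintro (g | g) (g' | g') h
    · exact congrArg Sum.inl (hinj1 φ₁ g g' h)
    · exact absurd h (hne12 g g')
    · exact absurd h.symm (hne12 g' g)
    · exact congrArg Sum.inr (hinj1 φ₂ g g' h)
  -- the complex relation
  let cf : (H ≃ₐ[K] H) ⊕ (H ≃ₐ[K] H) → ℂ := Sum.elim
    (fun g ↦ a * ((χ g⁻¹ : ℂˣ) : ℂ)) (fun g ↦ b * ((χ g⁻¹ : ℂˣ) : ℂ))
  have hrel : ∀ x : (𝓞 H)ˣ, ∑ i, cf i * ((Real.log (pl i (x : H)) : ℝ) : ℂ) = 0 := by
    intro x
    rw [Fintype.sum_sum_type]
    have h1 := hab (Additive.ofMul x)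
    have h2 := congrArg (fun t : ℂ ↦ (finrank K H : ℂ) * t) h1
    simp only [mul_zero] at h2
    rw [mul_add, mul_left_comm, hform, mul_left_comm, hform, Finset.mul_sum, Finset.mul_sum] at h2
    rw [← h2]
    congr 1
    · refine Finset.sum_congr rfl fun g _ ↦ ?_
      exact mul_assoc a _ _
    · refine Finset.sum_congr rfl fun g _ ↦ ?_
      exact mul_assoc b _ _
  have hre : ∀ i j, (cf i).re = (cf j).re := by
    refine const_of_relation pl hpl (fun i ↦ (cf i).re) fun x ↦ ?_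
    have h1 := congrArg Complex.re (hrel x)
    rw [Complex.re_sum, Complex.zero_re] at h1
    rw [← h1]
    refine Finset.sum_congr rfl fun i _ ↦ ?_
    rw [Complex.re_mul_ofReal]
  have him : ∀ i j, (cf i).im = (cf j).im := by
    refine const_of_relation pl hpl (fun i ↦ (cf i).im) fun x ↦ ?_
    have h1 := congrArg Complex.im (hrel x)
    rw [Complex.im_sum, Complex.zero_im] at h1
    rw [← h1]
    refine Finset.sum_congr rfl fun i _ ↦ ?_
    rw [Complex.im_mul_ofReal]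
  have hcf : ∀ i j, cf i = cf j := fun i j ↦ Complex.ext (hre i j) (him i j)
  obtain ⟨g, hg⟩ : ∃ g, χ g ≠ 1 := by
    by_contra h
    push Not at h
    exact hχ (MonoidHom.ext h)
  have hg' : ((χ g : ℂˣ) : ℂ) ≠ 1 := fun h ↦ hg (Units.ext h)
  have ha : a * ((χ g : ℂˣ) : ℂ) = a := by
    have h1 := hcf (Sum.inl g⁻¹) (Sum.inl 1)
    have h2 : a * ((χ (g⁻¹)⁻¹ : ℂˣ) : ℂ) = a * ((χ (1 : H ≃ₐ[K] H)⁻¹ : ℂˣ) : ℂ) := h1
    rw [inv_inv, inv_one, map_one, Units.val_one, mul_one] at h2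
    exact h2
  have ha0 : a = 0 := by
    have h1 : a * (((χ g : ℂˣ) : ℂ) - 1) = 0 := by rw [mul_sub, ha, mul_one, sub_self]
    exact (mul_eq_zero.1 h1).resolve_right (sub_ne_zero.2 hg')
  refine ⟨ha0, ?_⟩
  have h1 := hcf (Sum.inr 1) (Sum.inl 1)
  have h2 : b * ((χ (1 : H ≃ₐ[K] H)⁻¹ : ℂˣ) : ℂ) = a * ((χ (1 : H ≃ₐ[K] H)⁻¹ : ℂˣ) : ℂ) := h1
  rw [inv_one, map_one, Units.val_one, mul_one, mul_one] at h2
  rw [h2, ha0]

end Pool.Agent.Helper40.SLG.IND2
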